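import Pool.Agent.Y80.KM.Defs2

set_option autoImplicit false

open scoped BigOperators

/-! Job 1103 (Y80-KM-EXT): multigraded pieces of the exterior algebra. -/

namespace Pool.Agent.Y839.KM

open Pool.Agent.Y80.KM

section list

variable {k L I : Type*} [Field k] [AddCommGroup L] [Module k L] (b : I → L)

/-- the product of the basis vectors of a list -/
noncomputable def xl (k : Type*) {L I : Type*} [Field k] [AddCommGroup L] [Module k L] (b : I → L)
    (l : List I) : ExteriorAlgebra k L :=
  (l.map fun i => ExteriorAlgebra.ι k (b i)).prod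

lemma xl_perm {l l' : List I} (h : l.Perm l') : xl k b l = xl k b l' ∨ xl k b l = - xl k b l' := by
  induction h with
  | nil => left; rfl
  | cons x _ ih =>
    simp only [xl, List.map_cons, List.prod_cons] at ih ⊢
    rcases ih with ih | ih
    · left; rw [ih]
    · right; rw [ih, mul_neg]
  | swap x y l =>
    right
    simp only [xl, List.map_cons, List.prod_cons]
    rw [← mul_assoc, ← mul_assoc, ← neg_mul]
    congr 1
    exact eq_neg_of_add_eq_zero_left (ExteriorAlgebra.ι_add_mul_swap _ _)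
  | trans _ _ ih1 ih2 =>
    rcases ih1 with h1 | h1 <;> rcases ih2 with h2 | h2
    · left; rw [h1, h2]
    · right; rw [h1, h2]
    · right; rw [h1, h2]
    · left; rw [h1, h2, neg_neg]

lemma xl_dup {l : List I} (h : ¬ l.Nodup) : xl k b l = 0 := by
  obtain ⟨x, hx⟩ := List.exists_duplicate_iff_not_nodup.mpr h
  rw [List.duplicate_iff_sublist] at hx
  obtain ⟨l', hl'⟩ := hx.exists_perm_append
  have h0 : xl k b ([x, x] ++ l') = 0 := by
    simp only [xl, List.cons_append, List.nil_append, List.map_cons, List.prod_cons]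
    rw [← mul_assoc, ExteriorAlgebra.ι_sq_zero, zero_mul]
  rcases xl_perm (k := k) b hl' with h | h
  · rw [h, h0]
  · rw [h, h0, neg_zero]

end list

section EXT

variable {k L I Γ : Type*} [Field k] [AddCommGroup L] [Module k L] [AddCommMonoid Γ]

lemma B_eq [LinearOrder I] (b : Module.Basis I k L) (S : Finset I) :
    ∃ l : List I, l.Nodup ∧ (∀ i, i ∈ l ↔ i ∈ S) ∧ l.length = S.card ∧
      b.ExteriorAlgebra S = xl k b l := by
  refine ⟨List.ofFn (Set.powersetCard.ofFinEmbEquiv.symm
    (Set.powersetCard.ofCard (rfl : S.card = S.card))), ?_, ?_, ?_, ?_⟩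
  · rw [List.nodup_ofFn]
    exact (Set.powersetCard.ofFinEmbEquiv.symm
      (Set.powersetCard.ofCard (rfl : S.card = S.card))).injective
  · intro i
    rw [List.mem_ofFn]
    exact Set.powersetCard.mem_range_ofFinEmbEquiv_symm_iff_mem _ i
  · simp
  · rw [ExteriorAlgebra.basis_apply_ofCard b (rfl : S.card = S.card)]
    rw [ExteriorAlgebra.ιMulti_family, ExteriorAlgebra.ιMulti_apply, xl, List.map_ofFn]
    rfl

lemma sum_eq (γ : I → Γ) (S : Finset I) {l : List I} (hl : l.Nodup) (h : ∀ i, i ∈ l ↔ i ∈ S) :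
    (l.map γ).sum = ∑ i ∈ S, γ i := by
  classical
  rw [← List.sum_toFinset γ hl]
  congr 1
  ext i
  rw [List.mem_toFinset, h]

lemma card_eq (S : Finset I) {l : List I} (hl : l.Nodup) (h : ∀ i, i ∈ l ↔ i ∈ S) :
    l.length = S.card := by
  classical
  rw [← List.toFinset_card_of_nodup hl]
  congr 1
  ext i
  rw [List.mem_toFinset, h]

lemma eg_eq [LinearOrder I] (b : Module.Basis I k L) (γ : I → Γ) (p : ℕ) (g : Γ) :
    eg b γ p g = Submodule.span k
      (b.ExteriorAlgebra '' {S : Finset I | S.card = p ∧ ∑ i ∈ S, γ i = g}) := by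
  classical
  apply le_antisymm
  · rw [eg, Submodule.span_le]
    rintro _ ⟨l, hl, hg, rfl⟩
    change xl k b l ∈ _
    by_cases hn : l.Nodup
    · obtain ⟨l', hl', hm, hc, hB⟩ := B_eq b l.toFinset
      have hp : l.Perm l' := by
        rw [List.perm_ext_iff_of_nodup hn hl']
        intro i
        rw [hm, List.mem_toFinset]
      have hmem : b.ExteriorAlgebra l.toFinset ∈ Submodule.span k
          (b.ExteriorAlgebra '' {S : Finset I | S.card = p ∧ ∑ i ∈ S, γ i = g}) := by
        apply Submodule.subset_span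
        refine ⟨l.toFinset, ⟨?_, ?_⟩, rfl⟩
        · rw [List.toFinset_card_of_nodup hn, hl]
        · rw [← hg, List.sum_toFinset γ hn]
      rw [hB] at hmem
      rcases xl_perm (k := k) b hp with h | h
      · rw [h]; exact hmem
      · rw [h]; exact neg_mem hmem
    · rw [xl_dup b hn]; exact zero_mem _
  · rw [Submodule.span_le]
    rintro _ ⟨S, ⟨hc, hg⟩, rfl⟩
    obtain ⟨l, hl, hm, hlen, hB⟩ := B_eq b S
    apply Submodule.subset_span
    refine ⟨l, by rw [hlen, hc], ?_, hB⟩
    rw [sum_eq γ S hl hm, hg]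

theorem eg_finite (b : Module.Basis I k L) (γ : I → Γ) (p : ℕ) (g : Γ)
    (h : {S : Finset I | S.card = p ∧ ∑ i ∈ S, γ i = g}.Finite) :
    FiniteDimensional k (eg b γ p g) := by
  classical
  let _ : LinearOrder I := linearOrderOfSTO WellOrderingRel
  rw [eg_eq]
  exact FiniteDimensional.span_of_finite k (h.image _)

theorem eg_finrank (b : Module.Basis I k L) (γ : I → Γ) (p : ℕ) (g : Γ)
    (h : {S : Finset I | S.card = p ∧ ∑ i ∈ S, γ i = g}.Finite) :
    Module.finrank k (eg b γ p g) = {S : Finset I | S.card = p ∧ ∑ i ∈ S, γ i = g}.ncard := by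
  classical
  let _ : LinearOrder I := linearOrderOfSTO WellOrderingRel
  rw [eg_eq]
  have := h.fintype
  have hli : LinearIndependent k
      (fun S : {S : Finset I | S.card = p ∧ ∑ i ∈ S, γ i = g} => b.ExteriorAlgebra (S : Finset I)) :=
    b.ExteriorAlgebra.linearIndependent.comp _ Subtype.val_injective
  have := finrank_span_eq_card hli
  rw [Set.image_eq_range, this, Set.ncard_eq_toFinset_card', Set.toFinset_card]

theorem eg_internal (b : Module.Basis I k L) (γ : I → Γ) [DecidableEq Γ] :
    DirectSum.IsInternal fun q : ℕ × Γ => eg b γ q.1 q.2 := by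
  classical
  let _ : LinearOrder I := linearOrderOfSTO WellOrderingRel
  apply DirectSum.isInternal_submodule_of_iSupIndep_of_iSup_eq_top
  · intro q
    have h : (⨆ (j : ℕ × Γ) (_ : j ≠ q), eg b γ j.1 j.2) ≤
        Submodule.span k (b.ExteriorAlgebra '' {S : Finset I | (S.card, ∑ i ∈ S, γ i) ≠ q}) := by
      refine iSup₂_le ?_
      intro j hj
      rw [eg_eq]
      apply Submodule.span_mono
      apply Set.image_mono
      rintro S ⟨h1, h2⟩
      intro h3
      apply hj
      rw [← h3, h1, h2]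
    refine Disjoint.mono_right h ?_
    change Disjoint (eg b γ q.1 q.2) _
    rw [eg_eq]
    apply b.ExteriorAlgebra.linearIndependent.disjoint_span_image
    rw [Set.disjoint_left]
    rintro S ⟨h1, h2⟩ h3
    apply h3
    rw [h1, h2]
  · rw [eq_top_iff, ← b.ExteriorAlgebra.span_eq, Submodule.span_le]
    rintro _ ⟨S, rfl⟩
    apply Submodule.mem_iSup_of_mem (S.card, ∑ i ∈ S, γ i)
    rw [eg_eq]
    exact Submodule.subset_span ⟨S, ⟨rfl, rfl⟩, rfl⟩

theorem eg_iSup (b : Module.Basis I k L) (γ : I → Γ) (p : ℕ) :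
    ⨆ g : Γ, eg b γ p g = ⋀[k]^p L := by
  classical
  let _ : LinearOrder I := linearOrderOfSTO WellOrderingRel
  apply le_antisymm
  · refine iSup_le ?_
    intro g
    rw [eg_eq, Submodule.span_le]
    rintro _ ⟨S, ⟨rfl, -⟩, rfl⟩
    rw [ExteriorAlgebra.basis_apply_ofCard b (rfl : S.card = S.card)]
    exact (ExteriorAlgebra.ιMulti_range k S.card) ⟨_, rfl⟩
  · intro x hx
    have h1 : (⟨x, hx⟩ : ⋀[k]^p L) ∈ (⊤ : Submodule k (⋀[k]^p L)) := Submodule.mem_top
    rw [← (b.exteriorPower p).span_eq] at h1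
    have h2 := Submodule.mem_map_of_mem (f := (⋀[k]^p L).subtype) h1
    rw [Submodule.map_span] at h2
    refine (Submodule.span_le.mpr ?_) h2
    rintro _ ⟨_, ⟨s, rfl⟩, rfl⟩
    apply Submodule.mem_iSup_of_mem (∑ i ∈ s.val, γ i)
    rw [eg_eq]
    apply Submodule.subset_span
    refine ⟨s.val, ⟨?_, rfl⟩, ?_⟩
    · exact Set.powersetCard.mem_iff.mp s.2
    · exact ExteriorAlgebra.basis_eq_coe_basis b s

end EXT

end Pool.Agent.Y839.KM
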